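import Pool.Agent.Helper7.Comm.Final

set_option autoImplicit false

namespace Pool.Agent.Results.MP_76db9d_al.CommutatorEquations

/-- For all `r` and `c`, equations `[x, y] = g` are decidable in the free nilpotent group
`N = F_r / γ_{c+1}(F_r)`: the set of words `w` in the generators `a_1^{±1}, ..., a_r^{±1}` such
that `x⁻¹ y⁻¹ x y` equals the element of `N` represented by `w` for some `x, y ∈ N` is
computable. (`lowerCentralSeries c` is `γ_{c+1}`, with `lowerCentralSeries 0 = ⊤`.) -/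
theorem result (r c : ℕ) :
    ComputablePred (fun w : List (Fin r × Bool) =>
      ∃ x y : FreeGroup (Fin r) ⧸ (⊤ : Subgroup (FreeGroup (Fin r))).lowerCentralSeries c,
        x⁻¹ * y⁻¹ * x * y = QuotientGroup.mk (FreeGroup.mk w)) := by
  have h := Pool.Agent.Helper7.Comm.main r c
  have e : ∀ w : List (Fin r × Bool),
      (∃ x y : FreeGroup (Fin r) ⧸ (⊤ : Subgroup (FreeGroup (Fin r))).lowerCentralSeries c,
        x * y * x⁻¹ * y⁻¹ = QuotientGroup.mk (FreeGroup.mk w)) ↔
      ∃ x y : FreeGroup (Fin r) ⧸ (⊤ : Subgroup (FreeGroup (Fin r))).lowerCentralSeries c,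
        x⁻¹ * y⁻¹ * x * y = QuotientGroup.mk (FreeGroup.mk w) := by
    intro w
    constructor
    · rintro ⟨x, y, hxy⟩
      exact ⟨x⁻¹, y⁻¹, by rw [inv_inv, inv_inv]; exact hxy⟩
    · rintro ⟨x, y, hxy⟩
      exact ⟨x⁻¹, y⁻¹, by rw [inv_inv, inv_inv]; exact hxy⟩
  exact h.of_eq e

end Pool.Agent.Results.MP_76db9d_al.CommutatorEquations
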